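import Pool.Agent.H642.KK.Stm2

/-!
# Task CP (helper213): isomorphism of coloured permutations of a countable set is a Borel relation
-/

set_option autoImplicit false

namespace Pool.Agent.H213.KK

open Set
open Pool.Agent.H642.KK
open Pool.Agent.W889.VC (BP)

section comb

variable {I Γ : Type}

/-- the pointed coloured orbit -/
def pt (f : Equiv.Perm I) (c : I → Γ) (z : I) : ℤ → Γ × Prop :=
  fun k => (c ((f ^ k) z), (f ^ k) z = z)

/-- change of the base point -/
def sh (j : ℤ) (p : ℤ → Γ × Prop) : ℤ → Γ × Prop := fun k => ((p (k + j)).1, (p k).2)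

theorem pt_eq_iff {f g : Equiv.Perm I} {c d : I → Γ} {z w : I} :
    pt f c z = pt g d w ↔ ∀ k : ℤ, c ((f ^ k) z) = d ((g ^ k) w) ∧
      ((f ^ k) z = z ↔ (g ^ k) w = w) := by
  rw [funext_iff]
  refine forall_congr' fun k => ?_
  rw [Prod.ext_iff]
  show (_ = _ ∧ (_ = _)) ↔ _
  rw [eq_iff_iff]
  rfl

theorem ai (h : Equiv.Perm I) (x : I) : h (h⁻¹ x) = x := by
  rw [← Equiv.Perm.mul_apply, mul_inv_cancel, Equiv.Perm.one_apply]

theorem ia (h : Equiv.Perm I) (x : I) : h⁻¹ (h x) = x := by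
  rw [← Equiv.Perm.mul_apply, inv_mul_cancel, Equiv.Perm.one_apply]

theorem zpow_apply_add (f : Equiv.Perm I) (i j : ℤ) (z : I) : (f ^ i) ((f ^ j) z) = (f ^ (i + j)) z := by
  rw [zpow_add, Equiv.Perm.mul_apply]

theorem pt_zpow (f : Equiv.Perm I) (c : I → Γ) (z : I) (j : ℤ) :
    pt f c ((f ^ j) z) = sh j (pt f c z) := by
  funext k
  refine Prod.ext ?_ ?_
  · show c ((f ^ k) ((f ^ j) z)) = c ((f ^ (k + j)) z)
    rw [zpow_apply_add]
  · show ((f ^ k) ((f ^ j) z) = (f ^ j) z) = ((f ^ k) z = z)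
    rw [zpow_apply_add, add_comm, ← zpow_apply_add, (f ^ j).injective.eq_iff]

theorem sh_sh (i j : ℤ) (p : ℤ → Γ × Prop) : sh j (sh i p) = sh (j + i) p := by
  funext k
  refine Prod.ext ?_ rfl
  show (p (k + j + i)).1 = (p (k + (j + i))).1
  rw [add_assoc]

theorem sh_zero (p : ℤ → Γ × Prop) : sh 0 p = p := by
  funext k
  refine Prod.ext ?_ rfl
  show (p (k + 0)).1 = (p k).1
  rw [add_zero]

/-- pointed orbits up to the change of the base point -/
def shS (Γ : Type) : Setoid (ℤ → Γ × Prop) where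
  r p q := ∃ j : ℤ, sh j p = q
  iseqv :=
    { refl := fun p => ⟨0, sh_zero p⟩
      symm := by
        rintro p q ⟨j, rfl⟩
        exact ⟨-j, by rw [sh_sh, neg_add_cancel, sh_zero]⟩
      trans := by
        rintro p q r ⟨i, rfl⟩ ⟨j, rfl⟩
        exact ⟨j + i, by rw [sh_sh]⟩ }

/-- the orbits -/
def orS (f : Equiv.Perm I) : Setoid I where
  r x y := ∃ k : ℤ, (f ^ k) x = y
  iseqv :=
    { refl := fun x => ⟨0, by rw [zpow_zero, Equiv.Perm.one_apply]⟩
      symm := by
        rintro x y ⟨k, rfl⟩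
        exact ⟨-k, by rw [zpow_apply_add, neg_add_cancel, zpow_zero, Equiv.Perm.one_apply]⟩
      trans := by
        rintro x y z ⟨i, rfl⟩ ⟨j, rfl⟩
        exact ⟨j + i, by rw [zpow_apply_add]⟩ }

/-- the type of an orbit -/
def ty (f : Equiv.Perm I) (c : I → Γ) : Quotient (orS f) → Quotient (shS Γ) :=
  Quotient.map (pt f c) (by
    rintro x y ⟨k, rfl⟩
    exact ⟨k, (pt_zpow f c x k).symm⟩)

theorem ty_mk (f : Equiv.Perm I) (c : I → Γ) (z : I) :
    ty f c (Quotient.mk (orS f) z) = Quotient.mk (shS Γ) (pt f c z) := rfl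

/-- a point of an orbit of given pointed type -/
theorem exists_pt {f : Equiv.Perm I} {c : I → Γ} {o : Quotient (orS f)} {p : ℤ → Γ × Prop}
    (h : ty f c o = Quotient.mk (shS Γ) p) : ∃ z, Quotient.mk (orS f) z = o ∧ pt f c z = p := by
  obtain ⟨x, rfl⟩ := Quotient.exists_rep o
  rw [ty_mk] at h
  obtain ⟨j, hj⟩ : ∃ j : ℤ, sh j (pt f c x) = p := Quotient.exact h
  refine ⟨(f ^ j) x, Quotient.sound ?_, ?_⟩
  · exact ⟨-j, by rw [zpow_apply_add, neg_add_cancel, zpow_zero, Equiv.Perm.one_apply]⟩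
  · rw [pt_zpow, hj]

theorem zpow_eq_iff (f : Equiv.Perm I) (m n : ℤ) (z : I) :
    (f ^ m) z = (f ^ n) z ↔ (f ^ (m - n)) z = z := by
  conv_rhs => rw [← (f ^ n).injective.eq_iff]
  rw [zpow_apply_add, add_sub_cancel]

theorem exists_iso {f g : Equiv.Perm I} {c d : I → Γ} (e : Quotient (orS f) ≃ Quotient (orS g))
    (he : ∀ o, ty g d (e o) = ty f c o) : CIso f g c d := by
  have h1 : ∀ o : Quotient (orS f), ∃ z w : I, Quotient.mk (orS f) z = o ∧
      Quotient.mk (orS g) w = e o ∧ pt g d w = pt f c z := by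
    intro o
    obtain ⟨z, rfl⟩ := Quotient.exists_rep o
    obtain ⟨w, hw1, hw2⟩ := exists_pt (he (Quotient.mk (orS f) z))
    exact ⟨z, w, rfl, hw1, hw2⟩
  choose z w hz hw hzw using h1
  have h2 : ∀ x : I, ∃ k : ℤ, (f ^ k) (z (Quotient.mk (orS f) x)) = x := fun x =>
    Quotient.exact (hz (Quotient.mk (orS f) x))
  choose k hk using h2
  have hA : ∀ (o : Quotient (orS f)) (m n : ℤ),
      (f ^ m) (z o) = (f ^ n) (z o) ↔ (g ^ m) (w o) = (g ^ n) (w o) := by
    intro o m n
    rw [zpow_eq_iff, zpow_eq_iff]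
    exact ((pt_eq_iff.1 (hzw o)) (m - n)).2.symm
  let h : I → I := fun x => (g ^ (k x)) (w (Quotient.mk (orS f) x))
  have hmk : ∀ x, Quotient.mk (orS g) (h x) = e (Quotient.mk (orS f) x) := by
    intro x
    rw [← hw]
    exact Quotient.sound ⟨-(k x), by
      rw [zpow_apply_add, neg_add_cancel, zpow_zero, Equiv.Perm.one_apply]⟩
  have hinj : Function.Injective h := by
    intro x y hxy
    have h3 : Quotient.mk (orS f) x = Quotient.mk (orS f) y := by
      apply e.injective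
      rw [← hmk, ← hmk, hxy]
    have h4 : (g ^ (k x)) (w (Quotient.mk (orS f) x)) = (g ^ (k y)) (w (Quotient.mk (orS f) x)) := by
      have h5 : (g ^ (k x)) (w (Quotient.mk (orS f) x)) = (g ^ (k y)) (w (Quotient.mk (orS f) y)) := hxy
      rw [h5, h3]
    rw [← hA] at h4
    rw [← hk x, h4, h3, hk y]
  have hsurj : Function.Surjective h := by
    intro y
    obtain ⟨o, ho⟩ := e.surjective (Quotient.mk (orS g) y)
    rw [← hw] at ho
    obtain ⟨m, hm⟩ : ∃ m : ℤ, (g ^ m) (w o) = y := Quotient.exact ho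
    have h3 : Quotient.mk (orS f) ((f ^ m) (z o)) = o := by
      conv_rhs => rw [← hz o]
      exact Quotient.sound ⟨-m, by
        rw [zpow_apply_add, neg_add_cancel, zpow_zero, Equiv.Perm.one_apply]⟩
    refine ⟨(f ^ m) (z o), ?_⟩
    show (g ^ (k ((f ^ m) (z o)))) (w (Quotient.mk (orS f) ((f ^ m) (z o)))) = y
    have h4 := hk ((f ^ m) (z o))
    rw [h3] at h4 ⊢
    rw [hA] at h4
    rw [h4, hm]
  refine ⟨Equiv.ofBijective h ⟨hinj, hsurj⟩, ?_, ?_⟩
  · intro x
    show h (f x) = g (h x)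
    have h3 : Quotient.mk (orS f) (f x) = Quotient.mk (orS f) x := by
      refine Quotient.sound ⟨-1, ?_⟩
      rw [zpow_neg_one, Equiv.Perm.inv_def, Equiv.symm_apply_apply]
    show (g ^ (k (f x))) (w (Quotient.mk (orS f) (f x))) = g ((g ^ (k x)) (w (Quotient.mk (orS f) x)))
    have h4 : (f ^ (k (f x))) (z (Quotient.mk (orS f) x)) = (f ^ (1 + k x)) (z (Quotient.mk (orS f) x)) := by
      have h5 := hk (f x)
      rw [h3] at h5
      rw [h5, ← zpow_apply_add, hk x, zpow_one]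
    rw [h3]
    rw [hA] at h4
    rw [h4, ← zpow_apply_add, zpow_one]
  · intro x
    show d ((g ^ (k x)) (w (Quotient.mk (orS f) x))) = c x
    rw [((pt_eq_iff.1 (hzw (Quotient.mk (orS f) x))) (k x)).1, hk x]

/-- there are `n` orbits which contain points of the pointed type `p` -/
def cnt (f : Equiv.Perm I) (c : I → Γ) (p : ℤ → Γ × Prop) (n : ℕ) : Prop :=
  ∃ s : Fin n → I, (∀ i j, i ≠ j → ∀ k : ℤ, ¬ (f ^ k) (s i) = s j) ∧ ∀ i, pt f c (s i) = p

theorem cnt_iff (f : Equiv.Perm I) (c : I → Γ) (p : ℤ → Γ × Prop) (n : ℕ) :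
    cnt f c p n ↔ Nonempty (Fin n ↪ {o : Quotient (orS f) // ty f c o = Quotient.mk (shS Γ) p}) := by
  constructor
  · rintro ⟨s, h1, h2⟩
    refine ⟨⟨fun i => ⟨Quotient.mk (orS f) (s i), by rw [ty_mk, h2]⟩, fun i j hij => ?_⟩⟩
    by_contra hne
    rw [Subtype.mk.injEq] at hij
    obtain ⟨k, hk⟩ : ∃ k : ℤ, (f ^ k) (s i) = s j := Quotient.exact hij
    exact h1 i j hne k hk
  · rintro ⟨φ⟩
    choose s hs1 hs2 using fun i => exists_pt (φ i).2
    refine ⟨s, fun i j hij k hk => hij (φ.injective (Subtype.ext ?_)), hs2⟩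
    rw [← hs1 i, ← hs1 j]
    exact Quotient.sound ⟨k, hk⟩

theorem equiv_of_fin {A B : Type} [Countable A] [Countable B]
    (h : ∀ n : ℕ, Nonempty (Fin n ↪ A) ↔ Nonempty (Fin n ↪ B)) : Nonempty (A ≃ B) := by
  have key : ∀ (C : Type) (n : ℕ), Infinite C → Nonempty (Fin n ↪ C) := by
    intro C n _
    exact ⟨(Fin.valEmbedding (n := n)).trans (Infinite.natEmbedding C)⟩
  have key2 : ∀ (C : Type) (n : ℕ), Finite C → Nonempty (Fin n ↪ C) → n ≤ Nat.card C := by
    intro C n _ ⟨φ⟩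
    have := Nat.card_le_card_of_injective φ φ.injective
    rwa [Nat.card_fin] at this
  have key3 : ∀ (C : Type), Finite C → Nonempty (Fin (Nat.card C) ↪ C) := by
    intro C _
    exact ⟨(Finite.equivFin C).symm.toEmbedding⟩
  rcases finite_or_infinite A with hA | hA
  · rcases finite_or_infinite B with hB | hB
    · have h1 := key2 B _ hB ((h _).1 (key3 A hA))
      have h2 := key2 A _ hA ((h _).2 (key3 B hB))
      have h3 : Nat.card A = Nat.card B := le_antisymm h1 h2
      exact ⟨(Finite.equivFin A).trans ((finCongr h3).trans (Finite.equivFin B).symm)⟩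
    · have := key2 A _ hA ((h (Nat.card A + 1)).2 (key B _ hB))
      omega
  · rcases finite_or_infinite B with hB | hB
    · have := key2 B _ hB ((h (Nat.card B + 1)).1 (key A _ hA))
      omega
    · obtain ⟨dA⟩ := nonempty_denumerable A
      obtain ⟨dB⟩ := nonempty_denumerable B
      exact ⟨(Denumerable.eqv A).trans (Denumerable.eqv B).symm⟩

theorem cnt_of_iso {f g : Equiv.Perm I} {c d : I → Γ} {h : Equiv.Perm I}
    (h1 : ∀ x, h (f x) = g (h x)) (h2 : ∀ x, d (h x) = c x) (p : ℤ → Γ × Prop) (n : ℕ)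
    (hc : cnt f c p n) : cnt g d p n := by
  have hg : g = h * f * h⁻¹ := by
    ext x
    rw [Equiv.Perm.mul_apply, Equiv.Perm.mul_apply, h1, ai]
  have hgk : ∀ (k : ℤ) (x : I), (g ^ k) (h x) = h ((f ^ k) x) := by
    intro k x
    rw [hg, conj_zpow, Equiv.Perm.mul_apply, Equiv.Perm.mul_apply, ia]
  obtain ⟨s, hs1, hs2⟩ := hc
  refine ⟨fun i => h (s i), fun i j hij k => ?_, fun i => ?_⟩
  · rw [hgk, h.injective.eq_iff]
    exact hs1 i j hij k
  · rw [← hs2 i, pt_eq_iff]
    intro k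
    rw [hgk, h.injective.eq_iff, h2]
    exact ⟨rfl, Iff.rfl⟩

/-- the criterion -/
theorem ciso_iff [Countable I] (f g : Equiv.Perm I) (c d : I → Γ) : CIso f g c d ↔
    (∀ (z : I) (n : ℕ), cnt f c (pt f c z) n ↔ cnt g d (pt f c z) n) ∧
    (∀ (w : I) (n : ℕ), cnt f c (pt g d w) n ↔ cnt g d (pt g d w) n) := by
  constructor
  · rintro ⟨h, h1, h2⟩
    have h1' : ∀ x, h⁻¹ (g x) = f (h⁻¹ x) := by
      intro x
      have h3 := h1 (h⁻¹ x)
      rw [ai] at h3
      rw [← h3, ia]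
    have h2' : ∀ x, c (h⁻¹ x) = d x := by
      intro x
      rw [← h2, ai]
    exact ⟨fun z n => ⟨cnt_of_iso h1 h2 _ n, cnt_of_iso h1' h2' _ n⟩,
      fun w n => ⟨cnt_of_iso h1 h2 _ n, cnt_of_iso h1' h2' _ n⟩⟩
  · rintro ⟨h1, h2⟩
    have key : ∀ θ : Quotient (shS Γ),
        Nonempty ({o : Quotient (orS f) // ty f c o = θ} ≃ {o : Quotient (orS g) // ty g d o = θ}) := by
      intro θ
      have : Countable (Quotient (orS f)) := inferInstance
      have : Countable (Quotient (orS g)) := inferInstance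
      by_cases hf : Nonempty {o : Quotient (orS f) // ty f c o = θ}
      · obtain ⟨⟨o, ho⟩⟩ := hf
        obtain ⟨z, rfl⟩ := Quotient.exists_rep o
        rw [ty_mk] at ho
        subst ho
        apply equiv_of_fin
        intro n
        rw [← cnt_iff, ← cnt_iff]
        exact h1 z n
      · by_cases hg : Nonempty {o : Quotient (orS g) // ty g d o = θ}
        · obtain ⟨⟨o, ho⟩⟩ := hg
          obtain ⟨z, rfl⟩ := Quotient.exists_rep o
          rw [ty_mk] at ho
          subst ho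
          apply equiv_of_fin
          intro n
          rw [← cnt_iff, ← cnt_iff]
          exact h2 z n
        · rw [not_nonempty_iff] at hf hg
          exact ⟨Equiv.equivOfIsEmpty _ _⟩
    let E : ∀ θ : Quotient (shS Γ),
        {o : Quotient (orS f) // ty f c o = θ} ≃ {o : Quotient (orS g) // ty g d o = θ} :=
      fun θ => (key θ).some
    exact exists_iso (Equiv.ofFiberEquiv E) (fun o => Equiv.ofFiberEquiv_map E o)

end comb

section borel

variable {I Γ Y : Type} [Countable I] [MeasurableSpace Y] {F G : Y → Equiv.Perm I} {c d : I → Γ}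

theorem bp_pow (hF : ∀ i j, BP (fun y => F y i = j)) (n : ℕ) (z w : I) :
    BP (fun y => (F y ^ n) z = w) := by
  induction n generalizing w with
  | zero => exact (BP.const (z = w)).congr fun y => by rw [pow_zero, Equiv.Perm.one_apply]
  | succ n ih =>
    have h : BP (fun y => ∃ u : I, (F y ^ n) z = u ∧ F y u = w) :=
      BP.ex fun u => (ih u).and (hF u w)
    refine h.congr fun y => ?_
    rw [pow_succ', Equiv.Perm.mul_apply]
    constructor
    · rintro ⟨u, rfl, h2⟩
      exact h2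
    · intro h2
      exact ⟨_, rfl, h2⟩

theorem bp_zpow (hF : ∀ i j, BP (fun y => F y i = j)) (k : ℤ) (z w : I) :
    BP (fun y => (F y ^ k) z = w) := by
  rcases Int.eq_nat_or_neg k with ⟨n, rfl | rfl⟩
  · exact (bp_pow hF n z w).congr fun y => by rw [zpow_natCast]
  · refine (bp_pow hF n w z).congr fun y => ?_
    rw [zpow_neg, zpow_natCast, Equiv.Perm.inv_eq_iff_eq]
    exact eq_comm

theorem bp_pt (hF : ∀ i j, BP (fun y => F y i = j)) (hG : ∀ i j, BP (fun y => G y i = j))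
    (z w : I) : BP (fun y => pt (F y) c z = pt (G y) d w) := by
  have h : BP (fun y => ∀ k : ℤ, (∃ a : I, ∃ b : I, ((F y ^ k) z = a ∧ (G y ^ k) w = b) ∧ c a = d b) ∧
      ((F y ^ k) z = z ↔ (G y ^ k) w = w)) :=
    BP.all fun k => (BP.ex fun a => BP.ex fun b =>
      ((bp_zpow hF k z a).and (bp_zpow hG k w b)).and (BP.const _)).and
      ((bp_zpow hF k z z).iff (bp_zpow hG k w w))
  refine h.congr fun y => ?_
  rw [pt_eq_iff]
  refine forall_congr' fun k => and_congr ?_ Iff.rfl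
  constructor
  · rintro ⟨a, b, ⟨rfl, rfl⟩, h3⟩
    exact h3
  · intro h3
    exact ⟨_, _, ⟨rfl, rfl⟩, h3⟩

theorem bp_cnt (hF : ∀ i j, BP (fun y => F y i = j)) (hG : ∀ i j, BP (fun y => G y i = j))
    (w : I) (n : ℕ) : BP (fun y => cnt (F y) c (pt (G y) d w) n) :=
  BP.ex fun s : Fin n → I =>
    (BP.all fun i => BP.all fun j => (BP.const (i ≠ j)).imp (BP.all fun k => (bp_zpow hF k (s i) (s j)).not)).and
      (BP.all fun i => bp_pt hF hG (s i) w)

end borel

theorem t_CP : S_CP := by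
  intro I Γ Y _ _ F G c d hF hG
  have h : BP (fun y => (∀ (z : I) (n : ℕ),
      cnt (F y) c (pt (F y) c z) n ↔ cnt (G y) d (pt (F y) c z) n) ∧
      (∀ (w : I) (n : ℕ), cnt (F y) c (pt (G y) d w) n ↔ cnt (G y) d (pt (G y) d w) n)) :=
    (BP.all fun z => BP.all fun n => (bp_cnt hF hF z n).iff (bp_cnt hG hF z n)).and
      (BP.all fun w => BP.all fun n => (bp_cnt hF hG w n).iff (bp_cnt hG hG w n))
  exact h.congr fun y => (ciso_iff (F y) (G y) c d).symm

end Pool.Agent.H213.KK
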